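import Pool.Agent.Q124.NCay.Graph

/-!
# Groups acting freely on `G n` have at least `2 ^ (n - 1)` orbits
-/

namespace Q124.NCay

open SimpleGraph

theorem card_dvd_of_free {H X : Type*} [Group H] [MulAction H X] [Finite H] [Finite X]
    (h : ∀ (g : H) (x : X), g • x = x → g = 1) : Nat.card H ∣ Nat.card X := by
  classical
  have := Fintype.ofFinite H
  have := Fintype.ofFinite X
  have := Fintype.ofFinite (MulAction.orbitRel.Quotient H X)
  have hb : ∀ x : X, Fintype.card (MulAction.stabilizer H x) = 1 := by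
    intro x
    rw [Fintype.card_eq_one_iff]
    refine ⟨1, fun g => ?_⟩
    apply Subtype.ext
    exact h g.1 x g.2
  rw [Nat.card_eq_fintype_card, Nat.card_eq_fintype_card]
  have h1 := MulAction.card_eq_sum_card_group_div_card_stabilizer H X
  rw [h1]
  apply Finset.dvd_sum
  intro ω _
  rw [hb, Nat.div_one]

variable {n : ℕ}

/-- The elements of `Γ` which do not change the first entries. -/
def H0 (Γ : Subgroup (G n ≃g G n)) : Subgroup (G n ≃g G n) where
  carrier := {γ | γ ∈ Γ ∧ ∀ v, (γ v).1 = v.1}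
  mul_mem' := by
    rintro a b ⟨ha, ha'⟩ ⟨hb, hb'⟩
    refine ⟨Γ.mul_mem ha hb, fun v => ?_⟩
    rw [RelIso.mul_apply, ha', hb']
  one_mem' := ⟨Γ.one_mem, fun _ => rfl⟩
  inv_mem' := by
    rintro a ⟨ha, ha'⟩
    refine ⟨Γ.inv_mem ha, fun v => ?_⟩
    have h := ha' (a⁻¹ v)
    rw [RelIso.apply_inv_self] at h
    exact h.symm

/-- The vertices with first entry `0`. -/
abbrev L0 (n : ℕ) : Type := {v : GV n // v.1 = 0}

def L0equiv (n : ℕ) : L0 n ≃ (ZMod n → PV) where
  toFun v := v.1.2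
  invFun x := ⟨(0, x), rfl⟩
  left_inv v := Subtype.ext (Prod.ext v.2.symm rfl)
  right_inv _ := rfl

instance [NeZero n] : Finite (L0 n) := Finite.of_equiv _ (L0equiv n).symm

theorem card_L0 [NeZero n] : Nat.card (L0 n) = 10 ^ n := by
  rw [Nat.card_congr (L0equiv n), Nat.card_eq_fintype_card, Fintype.card_fun, ZMod.card]
  rfl

instance (Γ : Subgroup (G n ≃g G n)) : MulAction (H0 Γ) (L0 n) where
  smul γ v := ⟨γ.1 v.1, by rw [γ.2.2]; exact v.2⟩
  one_smul v := Subtype.ext rfl
  mul_smul a b v := Subtype.ext rfl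

theorem smul_val (Γ : Subgroup (G n ≃g G n)) (γ : H0 Γ) (v : L0 n) : (γ • v).1 = γ.1 v.1 := rfl

theorem H0_free {Γ : Subgroup (G n ≃g G n)} (hfree : ∀ γ ∈ Γ, ∀ v, γ v = v → γ = 1)
    (γ : H0 Γ) (v : L0 n) (h : γ • v = v) : γ = 1 := by
  apply Subtype.ext
  exact hfree γ.1 γ.2.1 v.1 (congrArg Subtype.val h)

theorem H0_finite [NeZero n] {Γ : Subgroup (G n ≃g G n)}
    (hfree : ∀ γ ∈ Γ, ∀ v, γ v = v → γ = 1) : Finite (H0 Γ) := by
  let v : L0 n := ⟨(0, fun _ => (0, false)), rfl⟩
  apply Finite.of_injective fun γ : H0 Γ => γ • v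
  intro a b hab
  have h : (b⁻¹ * a) • v = v := by
    rw [mul_smul]
    simp only at hab
    rw [hab, inv_smul_smul]
  have h1 := H0_free hfree _ _ h
  exact (inv_mul_eq_one.1 h1).symm

theorem H0_card [NeZero n] {Γ : Subgroup (G n ≃g G n)}
    (hfree : ∀ γ ∈ Γ, ∀ v, γ v = v → γ = 1) : Nat.card (H0 Γ) ≤ 5 ^ n := by
  have := H0_finite hfree
  have h1 : Nat.card (H0 Γ) ∣ 10 ^ n := by
    rw [← card_L0]
    exact card_dvd_of_free (H0_free hfree)
  have h2 : ¬ 2 ∣ Nat.card (H0 Γ) := by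
    intro h2
    obtain ⟨γ, hγ⟩ := exists_prime_orderOf_dvd_card' (G := H0 Γ) 2 h2
    have h3 : γ ^ 2 = 1 := by
      rw [← hγ]
      exact pow_orderOf_eq_one γ
    have h4 : γ.1 * γ.1 = 1 := by
      rw [pow_two] at h3
      exact congrArg Subtype.val h3
    obtain ⟨v, hv⟩ := exists_fixed γ.1 (fun v => by
      rw [← RelIso.mul_apply, h4]
      rfl) γ.2.2
    have h5 : γ = 1 := Subtype.ext (hfree γ.1 γ.2.1 v hv)
    rw [h5, orderOf_one] at hγ
    omega
  have h3 : Nat.Coprime (Nat.card (H0 Γ)) (2 ^ n) := by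
    apply Nat.Coprime.pow_right
    exact ((Nat.Prime.coprime_iff_not_dvd Nat.prime_two).2 h2).symm
  have h4 : (10 : ℕ) ^ n = 2 ^ n * 5 ^ n := by
    rw [← mul_pow]
    norm_num
  rw [h4] at h1
  exact Nat.le_of_dvd (by positivity) (h3.dvd_of_dvd_mul_left h1)

/-- The orbits of `Γ`. -/
def orbits {V : Type*} {G : SimpleGraph V} (Γ : Subgroup (G ≃g G)) : Set (Set V) :=
  {O | ∃ v, O = {w | ∃ γ ∈ Γ, γ v = w}}

theorem orbits_ge [NeZero n] {Γ : Subgroup (G n ≃g G n)}
    (hfree : ∀ γ ∈ Γ, ∀ v, γ v = v → γ = 1) {N : ℕ} (hN : (orbits Γ).encard = N) :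
    2 ^ n ≤ 2 * N := by
  classical
  have := H0_finite hfree
  have := Fintype.ofFinite (H0 Γ)
  have hcard := H0_card hfree
  rw [Nat.card_eq_fintype_card] at hcard
  let L : Finset (GV n) := Finset.univ.image fun x : ZMod n → PV => ((0 : ℤ), x)
  have hL : L.card = 10 ^ n := by
    rw [Finset.card_image_of_injective]
    · rw [Finset.card_univ, Fintype.card_fun, ZMod.card]
      rfl
    · intro x y hxy
      exact congrArg Prod.snd hxy
  have hmem : ∀ v, v ∈ L ↔ v.1 = 0 := by
    intro v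
    simp only [L, Finset.mem_image, Finset.mem_univ, true_and]
    constructor
    · rintro ⟨x, rfl⟩
      rfl
    · intro h
      exact ⟨v.2, Prod.ext h.symm rfl⟩
  let f : GV n → Set (GV n) := fun v => {w | ∃ γ ∈ Γ, γ v = w}
  have h1 : (L.image f).card ≤ N := by
    have h2 : ((L.image f : Finset (Set (GV n))) : Set (Set (GV n))) ⊆ orbits Γ := by
      intro O hO
      rw [Finset.mem_coe, Finset.mem_image] at hO
      obtain ⟨v, -, rfl⟩ := hO
      exact ⟨v, rfl⟩
    have h3 := Set.encard_le_encard h2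
    rw [Set.encard_coe_eq_coe_finsetCard, hN] at h3
    exact_mod_cast h3
  have h2 : L.card ≤ (2 * 5 ^ n) * (L.image f).card := by
    apply Finset.card_le_mul_card_image
    intro O hO
    obtain ⟨v, hv, rfl⟩ := Finset.mem_image.1 hO
    rw [hmem] at hv
    -- elements of `Γ` mapping `v` to the layer
    have key : ∀ w, w.1 = 0 → f w = f v → ∃ γ ∈ Γ, γ v = w ∧
        ((∀ u, (γ u).1 = u.1) ∨ ∀ u, (γ u).1 = -u.1) := by
      intro w hw hfw
      have h3 : w ∈ f v := by
        rw [← hfw]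
        exact ⟨1, Γ.one_mem, rfl⟩
      obtain ⟨γ, hγ, h4⟩ := h3
      refine ⟨γ, hγ, h4, ?_⟩
      obtain ⟨e, t, c, he, h5⟩ := aut_structure γ
      have h6 : (γ v).1 = e * v.1 + t := by
        have := h5 v.1 v.2
        rw [Prod.mk.eta] at this
        rw [this]
      rw [h4, hw, hv, mul_zero, zero_add] at h6
      have h7 : ∀ u, (γ u).1 = e * u.1 := by
        intro u
        have := h5 u.1 u.2
        rw [Prod.mk.eta] at this
        rw [this, ← h6, add_zero]
      rcases he with rfl | rfl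
      · left
        intro u
        rw [h7, one_mul]
      · right
        intro u
        rw [h7, neg_one_mul]
    let A : Finset (GV n) := Finset.univ.image fun γ : H0 Γ => γ.1 v
    have hA : A.card ≤ 5 ^ n := Finset.card_image_le.trans (by rwa [Finset.card_univ])
    by_cases hex : ∃ δ ∈ Γ, ∀ u, (δ u).1 = -u.1
    · obtain ⟨δ, hδ, hδ'⟩ := hex
      let B : Finset (GV n) := Finset.univ.image fun γ : H0 Γ => γ.1 (δ v)
      have hB : B.card ≤ 5 ^ n := Finset.card_image_le.trans (by rwa [Finset.card_univ])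
      have hsub : (L.filter fun w => f w = f v) ⊆ A ∪ B := by
        intro w hw
        rw [Finset.mem_filter, hmem] at hw
        obtain ⟨γ, h3, h4, h5 | h5⟩ := key w hw.1 hw.2
        · apply Finset.mem_union_left
          exact Finset.mem_image.2 ⟨⟨γ, h3, h5⟩, Finset.mem_univ _, h4⟩
        · apply Finset.mem_union_right
          refine Finset.mem_image.2 ⟨⟨γ * δ⁻¹, Γ.mul_mem h3 (Γ.inv_mem hδ), ?_⟩,
            Finset.mem_univ _, ?_⟩
          · intro u
            rw [RelIso.mul_apply, h5]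
            have h6 := hδ' (δ⁻¹ u)
            rw [RelIso.apply_inv_self] at h6
            rw [h6]
          · change (γ * δ⁻¹) (δ v) = w
            rw [RelIso.mul_apply, RelIso.inv_apply_self, h4]
      have h3 := Finset.card_le_card hsub
      have h4 := Finset.card_union_le A B
      omega
    · have hsub : (L.filter fun w => f w = f v) ⊆ A := by
        intro w hw
        rw [Finset.mem_filter, hmem] at hw
        obtain ⟨γ, h3, h4, h5 | h5⟩ := key w hw.1 hw.2
        · exact Finset.mem_image.2 ⟨⟨γ, h3, h5⟩, Finset.mem_univ _, h4⟩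
        · exact absurd ⟨γ, h3, h5⟩ hex
      have h3 := Finset.card_le_card hsub
      omega
  rw [hL] at h2
  have h3 : (2 * 5 ^ n) * (L.image f).card ≤ (2 * 5 ^ n) * N := Nat.mul_le_mul_left _ h1
  have h4 : (10 : ℕ) ^ n = 5 ^ n * 2 ^ n := by
    rw [← mul_pow]
    norm_num
  rw [h4] at h2
  have h5 : 5 ^ n * 2 ^ n ≤ 5 ^ n * (2 * N) := by
    calc 5 ^ n * 2 ^ n ≤ _ := h2.trans h3
      _ = 5 ^ n * (2 * N) := by ring
  exact Nat.le_of_mul_le_mul_left h5 (by positivity)

end Q124.NCay
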