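import Pool.Agent.Q124.NCay.Petersen

/-!
# The graphs `G n`

A vertex of `G n` is an integer `i` together with `n` vertices of the Petersen graph, indexed by
the integers modulo `n`.  One can move `i` by `1` or `2`, or move the vertex with index `i` modulo
`n` in the Petersen graph.
-/

namespace Q124.NCay

open SimpleGraph

/-- The vertices of `G n`. -/
abbrev GV (n : ℕ) : Type := ℤ × (ZMod n → PV)

/-- Two integers are near if they are distinct and differ by at most 2. -/
def near (i j : ℤ) : Prop := i ≠ j ∧ i - j ≤ 2 ∧ j - i ≤ 2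

/-- The rail edges. -/
def Rail {n : ℕ} (u v : GV n) : Prop := near u.1 v.1 ∧ u.2 = v.2

/-- The Petersen edges. -/
def Pet {n : ℕ} (u v : GV n) : Prop :=
  u.1 = v.1 ∧ petersen.Adj (u.2 (u.1 : ZMod n)) (v.2 (u.1 : ZMod n)) ∧
    ∀ k, k ≠ (u.1 : ZMod n) → u.2 k = v.2 k

/-- The graph `G n`. -/
def G (n : ℕ) : SimpleGraph (GV n) where
  Adj u v := Rail u v ∨ Pet u v
  symm := ⟨fun u v h => by
    rcases h with ⟨⟨h1, h2, h3⟩, h4⟩ | ⟨h1, h2, h3⟩
    · exact Or.inl ⟨⟨h1.symm, h3, h2⟩, h4.symm⟩
    · refine Or.inr ⟨h1.symm, ?_, ?_⟩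
      · rw [← h1]
        exact h2.symm
      · intro k hk
        rw [← h1] at hk
        exact (h3 k hk).symm⟩
  loopless := ⟨fun u h => by
    rcases h with ⟨⟨h1, -⟩, -⟩ | ⟨-, h2, -⟩
    · exact h1 rfl
    · exact petersen.loopless.irrefl _ h2⟩

variable {n : ℕ}

theorem G_adj (u v : GV n) : (G n).Adj u v ↔ Rail u v ∨ Pet u v := Iff.rfl

theorem Rail.ne_pet {u v : GV n} (h : Rail u v) : ¬ Pet u v := fun h' => h.1.1 h'.1

/-- The rail edges are the edges in triangles. -/
theorem rail_iff {u v : GV n} :
    Rail u v ↔ (G n).Adj u v ∧ ∃ w, (G n).Adj u w ∧ (G n).Adj v w := by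
  constructor
  · rintro ⟨⟨h1, h2, h3⟩, h4⟩
    refine ⟨Or.inl ⟨⟨h1, h2, h3⟩, h4⟩, ?_⟩
    obtain ⟨k, hk1, hk2⟩ : ∃ k, near u.1 k ∧ near v.1 k := by
      rcases lt_or_gt_of_ne h1 with h | h
      · by_cases h5 : u.1 + 1 = v.1
        · exact ⟨u.1 + 2, ⟨by omega, by omega, by omega⟩, ⟨by omega, by omega, by omega⟩⟩
        · exact ⟨u.1 + 1, ⟨by omega, by omega, by omega⟩, ⟨by omega, by omega, by omega⟩⟩
      · by_cases h5 : v.1 + 1 = u.1
        · exact ⟨v.1 + 2, ⟨by omega, by omega, by omega⟩, ⟨by omega, by omega, by omega⟩⟩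
        · exact ⟨v.1 + 1, ⟨by omega, by omega, by omega⟩, ⟨by omega, by omega, by omega⟩⟩
    exact ⟨(k, u.2), Or.inl ⟨hk1, rfl⟩, Or.inl ⟨hk2, h4.symm⟩⟩
  · rintro ⟨h | h, w, hu, hv⟩
    · exact h
    · exfalso
      obtain ⟨h1, h2, h3⟩ := h
      rcases hu with hu | hu
      · rcases hv with hv | hv
        · have : u.2 = v.2 := hu.2.trans hv.2.symm
          rw [this] at h2
          exact petersen.loopless.irrefl _ h2
        · exact hu.1.1 (h1.trans hv.1)
      · rcases hv with hv | hv
        · exact hv.1.1 (h1.symm.trans hu.1)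
        · have h4 := hv.2.1
          rw [← h1] at h4
          exact pet_triangle _ _ _ h2 h4 hu.2.1

theorem pet_iff {u v : GV n} : Pet u v ↔ (G n).Adj u v ∧ ¬ Rail u v := by
  constructor
  · intro h
    exact ⟨Or.inr h, fun h' => h'.ne_pet h⟩
  · rintro ⟨h | h, h'⟩
    · exact absurd h h'
    · exact h

theorem map_rail (σ : G n ≃g G n) {u v : GV n} : Rail (σ u) (σ v) ↔ Rail u v := by
  rw [rail_iff, rail_iff, σ.map_adj_iff]
  apply and_congr_right'
  constructor
  · rintro ⟨w, h1, h2⟩
    refine ⟨σ.symm w, ?_, ?_⟩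
    · rw [← σ.map_adj_iff]
      simpa using h1
    · rw [← σ.map_adj_iff]
      simpa using h2
  · rintro ⟨w, h1, h2⟩
    exact ⟨σ w, σ.map_adj_iff.2 h1, σ.map_adj_iff.2 h2⟩

theorem map_pet (σ : G n ≃g G n) {u v : GV n} : Pet (σ u) (σ v) ↔ Pet u v := by
  rw [pet_iff, pet_iff, σ.map_adj_iff, map_rail]

/-- Bijections of the integers preserving nearness are of the form `i ↦ ± i + c`. -/
theorem near_map (f : ℤ → ℤ) (hf : Function.Injective f)
    (h : ∀ i j, near (f i) (f j) ↔ near i j) :
    ∃ e t : ℤ, (e = 1 ∨ e = -1) ∧ ∀ i, f i = e * i + t := by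
  have h1 : ∀ i, f (i + 1) - f i = 1 ∨ f (i + 1) - f i = -1 := by
    intro i
    have a1 := (h (i - 1) i).2 ⟨by omega, by omega, by omega⟩
    have a2 := (h (i - 1) (i + 1)).2 ⟨by omega, by omega, by omega⟩
    have a3 := (h i (i + 1)).2 ⟨by omega, by omega, by omega⟩
    have a4 := (h i (i + 2)).2 ⟨by omega, by omega, by omega⟩
    have a5 := (h (i + 1) (i + 2)).2 ⟨by omega, by omega, by omega⟩
    have a6 : ¬ near (f (i - 1)) (f (i + 2)) := by
      rw [h]
      rintro ⟨-, h2, h3⟩
      omega
    have a7 : f (i - 1) ≠ f (i + 2) := fun h' => by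
      have := hf h'
      omega
    unfold near at *
    omega
  have h2 : ∀ i, f (i + 1) ≠ f (i - 1) := fun i h' => by
    have := hf h'
    omega
  have h3 : ∀ i, f (i + 1) - f i = f 1 - f 0 := by
    intro i
    induction i using Int.induction_on with
    | zero => simp
    | succ i ih =>
      have a1 := h1 i
      have a2 := h1 (i + 1)
      have a3 := h2 (i + 1)
      rw [add_sub_cancel_right] at a3
      omega
    | pred i ih =>
      have a1 := h1 (-i)
      have a2 := h1 (-i - 1)
      have a3 := h2 (-i)
      rw [sub_add_cancel] at a2 ⊢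
      omega
  refine ⟨f 1 - f 0, f 0, ?_, ?_⟩
  · have := h1 0
    rwa [zero_add] at this
  · intro i
    induction i using Int.induction_on with
    | zero => simp
    | succ i ih =>
      have := h3 i
      rw [mul_add, mul_one]
      linarith
    | pred i ih =>
      have := h3 (-i - 1)
      rw [sub_add_cancel] at this
      rw [mul_sub, mul_one]
      linarith

open Classical in
/-- A function that does not change when one moves along edges in the coordinates in `S` does not
depend on these coordinates. -/
theorem indep {α : Type*} (F : (ZMod n → PV) → α) (S : Finset (ZMod n))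
    (h : ∀ (x : ZMod n → PV) (j : ZMod n), j ∈ S → ∀ p q, petersen.Adj p q →
      F (Function.update x j p) = F (Function.update x j q)) :
    ∀ x y : ZMod n → PV, (∀ j, j ∉ S → x j = y j) → F x = F y := by
  induction S using Finset.induction_on with
  | empty =>
    intro x y hxy
    have : x = y := funext fun j => hxy j (Finset.notMem_empty j)
    rw [this]
  | insert k S hk ih =>
    intro x y hxy
    have h1 := ih (fun x j hj => h x j (Finset.mem_insert_of_mem hj))
      (Function.update x k (y k)) y ?_
    · rw [← h1]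
      have h2 := pet_const (fun p => F (Function.update x k p))
        (fun p q hpq => h x k (Finset.mem_insert_self _ _) p q hpq) (x k) (y k)
      simp only [Function.update_eq_self] at h2
      exact h2
    · intro j hj
      by_cases hjk : j = k
      · subst hjk
        simp
      · rw [Function.update_of_ne hjk]
        apply hxy
        rw [Finset.mem_insert]
        tauto

theorem pet_update (i : ℤ) (x : ZMod n → PV) {p q : PV} (h : petersen.Adj p q) :
    Pet ((i, Function.update x (i : ZMod n) p) : GV n) (i, Function.update x (i : ZMod n) q) := by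
  refine ⟨rfl, ?_, ?_⟩
  · simpa using h
  · intro k hk
    simp only at hk
    simp only
    rw [Function.update_of_ne hk, Function.update_of_ne hk]

/-- The structure of the automorphisms of `G n`. -/
theorem aut_structure [NeZero n] (σ : G n ≃g G n) :
    ∃ (e t : ℤ) (c : (ZMod n → PV) → (ZMod n → PV)), (e = 1 ∨ e = -1) ∧
      ∀ i x, σ (i, x) = (e * i + t, c x) := by
  classical
  have h1 : ∀ x i, (σ (i, x)).2 = (σ (0, x)).2 := by
    intro x i
    have hstep : ∀ i, (σ (i + 1, x)).2 = (σ (i, x)).2 := by
      intro i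
      have h2 : Rail ((i + 1, x) : GV n) (i, x) :=
        ⟨⟨by simp only; omega, by simp only; omega, by simp only; omega⟩, rfl⟩
      exact ((map_rail σ).2 h2).2
    induction i using Int.induction_on with
    | zero => rfl
    | succ i ih => rw [hstep, ih]
    | pred i ih =>
      have := hstep (-i - 1)
      rw [sub_add_cancel] at this
      rw [← this, ih]
  have h2 : ∀ x, ∃ e t : ℤ, (e = 1 ∨ e = -1) ∧ ∀ i, (σ (i, x)).1 = e * i + t := by
    intro x
    apply near_map fun i => (σ (i, x)).1
    · intro i j hij
      have h3 : σ (i, x) = σ (j, x) := Prod.ext hij (by rw [h1, h1 x j])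
      exact congrArg Prod.fst (σ.injective h3)
    · intro i j
      have h3 := map_rail σ (u := (i, x)) (v := (j, x))
      constructor
      · intro h4
        exact (h3.1 ⟨h4, by rw [h1, h1 x j]⟩).1
      · intro h4
        exact (h3.2 ⟨h4, rfl⟩).1
  choose e t h3 h4 using h2
  have h5 : ∀ x y, (e x, t x) = (e y, t y) := by
    intro x y
    refine indep (fun x => (e x, t x)) Finset.univ ?_ x y
      (fun j hj => absurd (Finset.mem_univ j) hj)
    intro x j _ p q hpq
    obtain ⟨i, rfl⟩ := ZMod.intCast_surjective j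
    have h6 := (map_pet σ).2 (pet_update i x hpq)
    have h7 := h6.1
    have hcast : ((i + n : ℤ) : ZMod n) = (i : ZMod n) := by simp
    have h8 := (map_pet σ).2 (pet_update (i + n) x hpq)
    rw [hcast] at h8
    have h9 := h8.1
    rw [h4, h4] at h7 h9
    have h10 : (e (Function.update x (i : ZMod n) p) - e (Function.update x (i : ZMod n) q)) * n
        = 0 := by linarith
    have hn : (n : ℤ) ≠ 0 := by exact_mod_cast NeZero.ne n
    have h11 := (mul_eq_zero.1 h10).resolve_right hn
    have h12 : e (Function.update x (i : ZMod n) p) = e (Function.update x (i : ZMod n) q) := by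
      linarith
    rw [h12] at h7
    have h13 : t (Function.update x (i : ZMod n) p) = t (Function.update x (i : ZMod n) q) := by
      linarith
    simp only [h12, h13]
  let x₀ : ZMod n → PV := fun _ => (0, false)
  refine ⟨e x₀, t x₀, fun x => (σ (0, x)).2, h3 x₀, ?_⟩
  intro i x
  have h6 := h5 x x₀
  rw [Prod.mk.injEq] at h6
  apply Prod.ext
  · simp only
    rw [h4, h6.1, h6.2]
  · exact h1 x i

/-- An involutive automorphism of `G n` which does not change the first entry of the vertices fixes
a vertex. -/
theorem exists_fixed [NeZero n] (σ : G n ≃g G n) (h1 : ∀ v, σ (σ v) = v)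
    (h2 : ∀ v, (σ v).1 = v.1) : ∃ v, σ v = v := by
  classical
  obtain ⟨e, t, c, -, h3⟩ := aut_structure σ
  have h4 : ∀ i x, σ (i, x) = (i, c x) := by
    intro i x
    have h5 := h2 (i, x)
    have h6 := h3 i x
    rw [h6] at h5
    rw [h6]
    exact Prod.ext h5 rfl
  have hcc : ∀ x, c (c x) = x := by
    intro x
    have h5 := h1 (0, x)
    rw [h4, h4] at h5
    exact congrArg Prod.snd h5
  have h5 : ∀ (x : ZMod n → PV) (j : ZMod n) (p q : PV), petersen.Adj p q →
      petersen.Adj (c (Function.update x j p) j) (c (Function.update x j q) j) ∧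
      ∀ k, k ≠ j → c (Function.update x j p) k = c (Function.update x j q) k := by
    intro x j p q hpq
    obtain ⟨i, rfl⟩ := ZMod.intCast_surjective j
    have h6 := (map_pet σ).2 (pet_update i x hpq)
    rw [h4, h4] at h6
    exact h6.2
  -- the value of `c x` at `k` depends only on `x k`
  have h6 : ∀ (k : ZMod n) (x y : ZMod n → PV), x k = y k → c x k = c y k := by
    intro k x y hxy
    refine indep (fun x => c x k) (Finset.univ.erase k) ?_ x y ?_
    · intro x j hj p q hpq
      exact (h5 x j p q hpq).2 k (Finset.ne_of_mem_erase hj).symm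
    · intro j hj
      have : j = k := by
        by_contra hjk
        exact hj (Finset.mem_erase.2 ⟨hjk, Finset.mem_univ j⟩)
      rw [this]
      exact hxy
  let x₀ : ZMod n → PV := fun _ => (0, false)
  let φ : ZMod n → PV → PV := fun k p => c (Function.update x₀ k p) k
  have h7 : ∀ x k, c x k = φ k (x k) := by
    intro x k
    apply h6
    simp
  have h8 : ∀ k, ∃ p, φ k p = p := by
    intro k
    apply pet_fixed
    · intro p
      have h9 := congrFun (hcc (Function.update x₀ k p)) k
      rw [h7, h7] at h9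
      simpa using h9
    · intro p q hpq
      exact (h5 x₀ k p q hpq).1
  choose p hp using h8
  refine ⟨(0, p), ?_⟩
  have h9 : c p = p := funext fun k => by rw [h7, hp]
  rw [h4, h9]

end Q124.NCay
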