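import Mathlib

/-!
# The Petersen graph

Every involutive automorphism of the Petersen graph fixes a vertex.
-/

namespace Q124.NCay

/-- The vertices of the Petersen graph: two copies of the integers modulo 5. -/
abbrev PV : Type := ZMod 5 × Bool

/-- The Petersen graph: an outer 5-cycle, an inner 5-cycle in which vertices at cyclic distance 2 are
adjacent, and spokes. -/
def petersen : SimpleGraph PV where
  Adj u v := (u.2 = false ∧ v.2 = false ∧ (u.1 - v.1 = 1 ∨ v.1 - u.1 = 1)) ∨
    (u.2 = true ∧ v.2 = true ∧ (u.1 - v.1 = 2 ∨ v.1 - u.1 = 2)) ∨ (u.1 = v.1 ∧ u.2 ≠ v.2)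
  symm := ⟨by decide⟩
  loopless := ⟨by decide⟩

instance : DecidableRel petersen.Adj := fun u v => by
  unfold petersen
  infer_instance

/-- The Petersen graph has no triangles. -/
theorem pet_triangle : ∀ u v w : PV, petersen.Adj u v → petersen.Adj v w → ¬ petersen.Adj u w := by
  decide

/-- Two nonadjacent vertices have a unique common neighbour. -/
theorem pet_common : ∀ u v : PV, u ≠ v → ¬ petersen.Adj u v →
    ∃ w, petersen.Adj u w ∧ petersen.Adj v w ∧
      ∀ w', petersen.Adj u w' → petersen.Adj v w' → w' = w := by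
  decide +kernel

theorem pet_degree : ∀ u : PV, (Finset.univ.filter fun v => petersen.Adj u v).card = 3 := by
  decide

theorem pet_two : ∀ u v : PV, ∃ w, petersen.Adj u w ∧ w ≠ v := by
  decide

/-- The rotation of the Petersen graph. -/
def rot (a : ZMod 5) : petersen ≃g petersen where
  toFun u := (u.1 + a, u.2)
  invFun u := (u.1 - a, u.2)
  left_inv u := by simp
  right_inv u := by simp
  map_rel_iff' := by
    revert a
    decide +kernel

/-- The automorphism exchanging the two 5-cycles. -/
def swap : petersen ≃g petersen where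
  toFun u := (2 * u.1, !u.2)
  invFun u := (3 * u.1, !u.2)
  left_inv := by decide
  right_inv := by decide
  map_rel_iff' := by decide +kernel

theorem pet_transitive : ∀ u v : PV, ∃ φ : petersen ≃g petersen, φ u = v := by
  intro u v
  by_cases h : u.2 = v.2
  · refine ⟨rot (v.1 - u.1), ?_⟩
    apply Prod.ext
    · change u.1 + (v.1 - u.1) = v.1
      ring
    · exact h
  · refine ⟨swap.trans (rot (v.1 - 2 * u.1)), ?_⟩
    apply Prod.ext
    · change 2 * u.1 + (v.1 - 2 * u.1) = v.1
      ring
    · change (!u.2) = v.2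
      cases hu : u.2 <;> cases hv : v.2 <;> simp_all

/-- A map constant along edges is constant. -/
theorem pet_const {α : Type*} (f : PV → α) (h : ∀ p q, petersen.Adj p q → f p = f q) (p q : PV) :
    f p = f q := by
  by_cases hpq : p = q
  · rw [hpq]
  · by_cases hadj : petersen.Adj p q
    · exact h p q hadj
    · obtain ⟨w, h1, h2, -⟩ := pet_common p q hpq hadj
      rw [h p w h1, h q w h2]

/-- An involution of the Petersen graph preserving adjacency fixes a vertex. -/
theorem pet_fixed (φ : PV → PV) (h1 : ∀ p, φ (φ p) = p)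
    (h2 : ∀ p q, petersen.Adj p q → petersen.Adj (φ p) (φ q)) : ∃ p, φ p = p := by
  by_contra hcon
  push Not at hcon
  -- every vertex is adjacent to its image
  have h3 : ∀ p, petersen.Adj p (φ p) := by
    intro p
    by_contra hadj
    obtain ⟨w, h4, h5, h6⟩ := pet_common p (φ p) (hcon p).symm hadj
    have h7 := h2 p w h4
    have h8 := h2 (φ p) w h5
    rw [h1] at h8
    exact hcon w (h6 (φ w) h8 h7)
  obtain ⟨u, h4, h5⟩ := pet_two (0, false) (φ (0, false))
  set v : PV := (0, false) with hv
  -- the 4-cycle `v, u, φ u, φ v`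
  have h6 := h2 v u h4
  have h7 : v ≠ φ u := by
    intro h
    apply h5
    rw [h, h1]
  have h8 : ¬ petersen.Adj v (φ u) := pet_triangle v u (φ u) h4 (h3 u)
  obtain ⟨w, h9, h10, h11⟩ := pet_common v (φ u) h7 h8
  have h12 := h11 u h4 (h3 u).symm
  have h13 := h11 (φ v) (h3 v) h6.symm
  exact h5 (h12.trans h13.symm)

end Q124.NCay
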