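import Pool.Agent.Q124.NCay.Graph

/-!
# Vertex-transitivity, regularity and ends of `G n`
-/

namespace Q124.NCay

open SimpleGraph

/-! ### Definitions -/

section Defs

variable {V : Type*} (G : SimpleGraph V)

/-- `G` is vertex-transitive. -/
def VertexTransitive : Prop := ∀ u v : V, ∃ φ : G ≃g G, φ u = v

/-- `r` is a ray. -/
def IsRay (r : ℕ → V) : Prop := Function.Injective r ∧ ∀ k, G.Adj (r k) (r (k + 1))

/-- No finite set of vertices separates tails of `r` and `s`. -/
def RayEquiv (r s : ℕ → V) : Prop := ∀ S : Set V, S.Finite → ∃ m, ∀ i ≥ m, ∀ j ≥ m,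
  ∃ (hi : r i ∈ Sᶜ) (hj : s j ∈ Sᶜ), (G.induce Sᶜ).Reachable ⟨r i, hi⟩ ⟨s j, hj⟩

/-- `G` has exactly two ends. -/
def TwoEnded : Prop := ∃ r s, IsRay G r ∧ IsRay G s ∧ ¬ RayEquiv G r s ∧
  ∀ t, IsRay G t → RayEquiv G t r ∨ RayEquiv G t s

end Defs

variable {n : ℕ}

/-! ### Vertex-transitivity -/

/-- The shift. -/
def shiftAut (n : ℕ) (t : ℤ) : G n ≃g G n where
  toFun v := (v.1 + t, fun k => v.2 (k - t))
  invFun v := (v.1 - t, fun k => v.2 (k + t))
  left_inv v := by
    apply Prod.ext
    · simp
    · funext k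
      simp
  right_inv v := by
    apply Prod.ext
    · simp
    · funext k
      simp
  map_rel_iff' := by
    rintro ⟨a, z⟩ ⟨b, w⟩
    rw [G_adj, G_adj]
    simp only [Equiv.coe_fn_mk, Rail, Pet, near]
    push_cast
    apply or_congr
    · apply and_congr
      · constructor <;> rintro ⟨h1, h2, h3⟩ <;> exact ⟨by omega, by omega, by omega⟩
      · constructor
        · intro h
          funext k
          have := congrFun h (k + t)
          simpa using this
        · intro h
          rw [h]
    · rw [add_left_inj, add_sub_cancel_right]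
      apply and_congr_right'
      apply and_congr_right'
      constructor
      · intro h k hk
        have := h (k + t) (fun h' => hk (add_right_cancel h'))
        simpa using this
      · intro h k hk
        apply h
        intro h'
        apply hk
        rw [← h', sub_add_cancel]

/-- Automorphisms in the coordinates. -/
def coordAut (n : ℕ) (φ : ZMod n → (petersen ≃g petersen)) : G n ≃g G n where
  toFun v := (v.1, fun k => φ k (v.2 k))
  invFun v := (v.1, fun k => (φ k).symm (v.2 k))
  left_inv v := by simp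
  right_inv v := by simp
  map_rel_iff' := by
    rintro ⟨a, z⟩ ⟨b, w⟩
    rw [G_adj, G_adj]
    simp only [Equiv.coe_fn_mk, Rail, Pet, near, (φ _).map_adj_iff, (φ _).injective.eq_iff]
    apply or_congr_left
    apply and_congr_right'
    constructor
    · intro h
      funext k
      exact (φ k).injective (congrFun h k)
    · intro h
      rw [h]

theorem G_transitive : VertexTransitive (G n) := by
  intro u v
  have h : ∀ k : ZMod n, ∃ φ : petersen ≃g petersen,
      φ ((shiftAut n (v.1 - u.1) u).2 k) = v.2 k := fun k => pet_transitive _ _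
  choose φ hφ using h
  refine ⟨(shiftAut n (v.1 - u.1)).trans (coordAut n φ), ?_⟩
  rw [RelIso.trans_apply]
  apply Prod.ext
  · change u.1 + (v.1 - u.1) = v.1
    ring
  · funext k
    exact hφ k

/-! ### Regularity -/

theorem G_regular [NeZero n] (v : GV n) : ((G n).neighborSet v).ncard = 7 := by
  classical
  obtain ⟨i, x⟩ := v
  let A : Finset (GV n) := ({i + 1, i - 1, i + 2, i - 2} : Finset ℤ).image fun j => (j, x)
  let B : Finset (GV n) := (Finset.univ.filter fun p => petersen.Adj (x (i : ZMod n)) p).image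
    fun p => (i, Function.update x (i : ZMod n) p)
  have hA : A.card = 4 := by
    rw [Finset.card_image_of_injective _ (fun a b h => congrArg Prod.fst h)]
    rw [Finset.card_insert_of_notMem, Finset.card_insert_of_notMem, Finset.card_insert_of_notMem,
      Finset.card_singleton]
    all_goals
      simp only [Finset.mem_insert, Finset.mem_singleton]
      omega
  have hB : B.card = 3 := by
    rw [Finset.card_image_of_injective]
    · exact pet_degree _
    · intro p q h
      have h1 := congrFun (congrArg Prod.snd h) (i : ZMod n)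
      simpa using h1
  have hdisj : Disjoint A B := by
    rw [Finset.disjoint_left]
    intro w hw hw'
    obtain ⟨j, hj, rfl⟩ := Finset.mem_image.1 hw
    obtain ⟨p, -, hp⟩ := Finset.mem_image.1 hw'
    have h1 : i = j := congrArg Prod.fst hp
    simp only [Finset.mem_insert, Finset.mem_singleton] at hj
    omega
  have hset : (G n).neighborSet (i, x) = ((A ∪ B : Finset (GV n)) : Set (GV n)) := by
    ext ⟨j, y⟩
    rw [mem_neighborSet, G_adj, Finset.mem_coe, Finset.mem_union]
    apply or_congr
    · simp only [Rail, near, A, Finset.mem_image, Finset.mem_insert, Finset.mem_singleton,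
        Prod.mk.injEq]
      constructor
      · rintro ⟨⟨h1, h2, h3⟩, rfl⟩
        exact ⟨j, by omega, rfl, rfl⟩
      · rintro ⟨k, hk, rfl, rfl⟩
        exact ⟨⟨by omega, by omega, by omega⟩, rfl⟩
    · simp only [Pet, B, Finset.mem_image, Finset.mem_filter, Finset.mem_univ, true_and,
        Prod.mk.injEq]
      constructor
      · rintro ⟨h1, h2, h3⟩
        refine ⟨y (i : ZMod n), h2, h1, ?_⟩
        funext k
        by_cases hk : k = (i : ZMod n)
        · subst hk
          simp
        · rw [Function.update_of_ne hk, h3 k hk]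
      · rintro ⟨p, hp, rfl, rfl⟩
        refine ⟨rfl, by simpa using hp, fun k hk => ?_⟩
        rw [Function.update_of_ne hk]
  rw [hset, Set.ncard_coe_finset, Finset.card_union_of_disjoint hdisj, hA, hB]

/-! ### Connectedness -/

/-- The vertices on one side. -/
def side (n : ℕ) (s m : ℤ) : Set (GV n) := {v | m < s * v.1}

theorem side_rail {s m : ℤ} (hs : s = 1 ∨ s = -1) (x : ZMod n → PV) (k : ℕ) :
    ∀ i (hi : ((i, x) : GV n) ∈ side n s m) (hj : ((i + s * k, x) : GV n) ∈ side n s m),
    ((G n).induce (side n s m)).Reachable ⟨(i, x), hi⟩ ⟨(i + s * k, x), hj⟩ := by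
  induction k with
  | zero =>
    intro i hi hj
    have h : (⟨(i, x), hi⟩ : side n s m) = ⟨(i + s * (0 : ℕ), x), hj⟩ := by
      apply Subtype.ext
      simp
    rw [h]
  | succ k ih =>
    intro i hi hj
    have hm : ((i + s * k, x) : GV n) ∈ side n s m := by
      change m < s * (i + s * k)
      have hi' : m < s * i := hi
      rcases hs with rfl | rfl
      · omega
      · omega
    refine (ih i hi hm).trans ?_
    apply Adj.reachable
    rw [comap_adj]
    left
    refine ⟨?_, rfl⟩
    change near (i + s * k) (i + s * (k + 1 : ℕ))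
    unfold near
    push_cast
    rcases hs with rfl | rfl
    · exact ⟨by omega, by omega, by omega⟩
    · exact ⟨by omega, by omega, by omega⟩

theorem side_rail' {s m : ℤ} (hs : s = 1 ∨ s = -1) (x : ZMod n → PV) (i j : ℤ)
    (hi : ((i, x) : GV n) ∈ side n s m) (hj : ((j, x) : GV n) ∈ side n s m) :
    ((G n).induce (side n s m)).Reachable ⟨(i, x), hi⟩ ⟨(j, x), hj⟩ := by
  have key : ∀ i j (hi : ((i, x) : GV n) ∈ side n s m) (hj : ((j, x) : GV n) ∈ side n s m),
      s * i ≤ s * j → ((G n).induce (side n s m)).Reachable ⟨(i, x), hi⟩ ⟨(j, x), hj⟩ := by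
    intro i j hi hj hij
    obtain ⟨k, hk⟩ : ∃ k : ℕ, j = i + s * k := by
      refine ⟨(s * j - s * i).toNat, ?_⟩
      rcases hs with rfl | rfl
      · omega
      · omega
    subst hk
    exact side_rail hs x k i hi hj
  rcases le_total (s * i) (s * j) with h | h
  · exact key i j hi hj h
  · exact (key j i hj hi h).symm

theorem side_connected [NeZero n] {s : ℤ} (hs : s = 1 ∨ s = -1) (m : ℤ) (u v : GV n)
    (hu : u ∈ side n s m) (hv : v ∈ side n s m) :
    ((G n).induce (side n s m)).Reachable ⟨u, hu⟩ ⟨v, hv⟩ := by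
  classical
  have hss : s * s = 1 := by
    rcases hs with rfl | rfl <;> norm_num
  have hmem : ∀ (a : ℕ) (x : ZMod n → PV), ((s * (m + 1 + a), x) : GV n) ∈ side n s m := by
    intro a x
    change m < s * (s * (m + 1 + a))
    rw [← mul_assoc, hss]
    omega
  let F : (ZMod n → PV) → ((G n).induce (side n s m)).ConnectedComponent := fun x =>
    ((G n).induce (side n s m)).connectedComponentMk ⟨(s * (m + 1 + (0 : ℕ)), x), hmem 0 x⟩
  have hF : ∀ x y, F x = F y := by
    intro x y
    refine indep F Finset.univ ?_ x y (fun j hj => absurd (Finset.mem_univ j) hj)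
    intro x j _ p q hpq
    rw [ConnectedComponent.eq]
    let a : ℕ := ((s : ZMod n) * j - (m + 1)).val
    have ha : ((s * (m + 1 + a) : ℤ) : ZMod n) = j := by
      push_cast
      rw [ZMod.natCast_zmod_val]
      have hss' : (s : ZMod n) * s = 1 := by
        have := congrArg (fun z : ℤ => (z : ZMod n)) hss
        push_cast at this
        exact this
      calc (s : ZMod n) * (m + 1 + (s * j - (m + 1))) = s * s * j := by ring
        _ = j := by rw [hss', one_mul]
    have h1 := side_rail' hs (Function.update x j p) _ _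
      (hmem 0 (Function.update x j p)) (hmem a (Function.update x j p))
    have h2 := side_rail' hs (Function.update x j q) _ _
      (hmem a (Function.update x j q)) (hmem 0 (Function.update x j q))
    refine h1.trans (Reachable.trans ?_ h2)
    apply Adj.reachable
    rw [comap_adj]
    right
    have h3 := pet_update (s * (m + 1 + a)) x hpq
    rw [ha] at h3
    exact h3
  have h1 := side_rail' hs u.2 u.1 _ hu (hmem 0 u.2)
  have h2 := side_rail' hs v.2 _ v.1 (hmem 0 v.2) hv
  have h3 := ConnectedComponent.exact (hF u.2 v.2)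
  exact h1.trans (h3.trans h2)

theorem G_connected [NeZero n] : (G n).Connected := by
  have : Nonempty (GV n) := ⟨(0, fun _ => (0, false))⟩
  refine Connected.mk fun u v => ?_
  let m : ℤ := min u.1 v.1 - 1
  have hu : u ∈ side n 1 m := by
    change m < 1 * u.1
    omega
  have hv : v ∈ side n 1 m := by
    change m < 1 * v.1
    omega
  have h := side_connected (Or.inl rfl) m u v hu hv
  exact h.map (Embedding.induce (side n 1 m)).toHom

/-! ### Ends -/

theorem adj_near {u v : GV n} (h : (G n).Adj u v) : u.1 - v.1 ≤ 2 ∧ v.1 - u.1 ≤ 2 := by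
  rcases h with ⟨⟨-, h1, h2⟩, -⟩ | ⟨h, -⟩
  · exact ⟨h1, h2⟩
  · omega

/-- The ray goes to infinity in the direction `s`. -/
def Goes (s : ℤ) (r : ℕ → GV n) : Prop := ∀ M : ℤ, ∃ m, ∀ i ≥ m, M < s * (r i).1

theorem slab_finite [NeZero n] (M : ℤ) : {v : GV n | -M ≤ v.1 ∧ v.1 ≤ M}.Finite := by
  apply ((Set.finite_Icc (-M) M).prod (Set.finite_univ (α := ZMod n → PV))).subset
  intro v hv
  exact ⟨hv, Set.mem_univ _⟩

theorem ray_leaves [NeZero n] {r : ℕ → GV n} (hr : Function.Injective r) (M : ℤ) :
    ∃ m, ∀ i ≥ m, ¬ (-M ≤ (r i).1 ∧ (r i).1 ≤ M) := by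
  have h : {i | -M ≤ (r i).1 ∧ (r i).1 ≤ M}.Finite := (slab_finite (n := n) M).preimage hr.injOn
  obtain ⟨b, hb⟩ := h.bddAbove
  refine ⟨b + 1, fun i hi hcon => ?_⟩
  have := hb hcon
  omega

theorem ray_goes [NeZero n] {r : ℕ → GV n} (hr : IsRay (G n) r) :
    Goes 1 r ∨ Goes (-1) r := by
  obtain ⟨m₀, h₀⟩ := ray_leaves hr.1 2
  have hstep : ∀ (M : ℤ) (m : ℕ), 2 ≤ M → (∀ i ≥ m, ¬ (-M ≤ (r i).1 ∧ (r i).1 ≤ M)) →
      (M < (r m).1 → ∀ i ≥ m, M < (r i).1) ∧ ((r m).1 < -M → ∀ i ≥ m, (r i).1 < -M) := by
    intro M m hM h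
    constructor
    · intro hm i hi
      induction i, hi using Nat.le_induction with
      | base => exact hm
      | succ i hi ih =>
        have h1 := adj_near (hr.2 i)
        have h2 := h (i + 1) (by omega)
        omega
    · intro hm i hi
      induction i, hi using Nat.le_induction with
      | base => exact hm
      | succ i hi ih =>
        have h1 := adj_near (hr.2 i)
        have h2 := h (i + 1) (by omega)
        omega
  have h1 := hstep 2 m₀ le_rfl h₀
  have h2 := h₀ m₀ le_rfl
  rcases lt_or_ge 2 (r m₀).1 with h3 | h3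
  · left
    intro M
    obtain ⟨m, hm⟩ := ray_leaves hr.1 (max M 2)
    refine ⟨max m m₀, fun i hi => ?_⟩
    have h4 := h1.1 h3 i (by omega)
    have h5 := hm i (by omega)
    omega
  · right
    intro M
    obtain ⟨m, hm⟩ := ray_leaves hr.1 (max M 2)
    refine ⟨max m m₀, fun i hi => ?_⟩
    have h4 := h1.2 (by omega) i (by omega)
    have h5 := hm i (by omega)
    omega

theorem goes_equiv [NeZero n] {s : ℤ} (hs : s = 1 ∨ s = -1) {r t : ℕ → GV n} (hr : Goes s r)
    (ht : Goes s t) : RayEquiv (G n) r t := by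
  intro S hS
  obtain ⟨M, hM⟩ := (hS.image fun v => s * v.1).bddAbove
  obtain ⟨a, ha⟩ := hr M
  obtain ⟨b, hb⟩ := ht M
  have hsub : side n s M ⊆ Sᶜ := by
    intro v hv hvS
    have h1 : s * v.1 ≤ M := hM ⟨v, hvS, rfl⟩
    have h2 : M < s * v.1 := hv
    omega
  refine ⟨max a b, fun i hi j hj => ?_⟩
  have h1 : r i ∈ side n s M := ha i (by omega)
  have h2 : t j ∈ side n s M := hb j (by omega)
  refine ⟨hsub h1, hsub h2, ?_⟩
  exact (side_connected hs M (r i) (t j) h1 h2).map (induceHomOfLE (G n) hsub).toHom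

theorem G_twoEnded [NeZero n] : TwoEnded (G n) := by
  let x₀ : ZMod n → PV := fun _ => (0, false)
  let r : ℕ → GV n := fun k => ((k : ℤ), x₀)
  let t : ℕ → GV n := fun k => (-(k : ℤ), x₀)
  have hr : IsRay (G n) r := by
    constructor
    · intro a b h
      have : (a : ℤ) = b := congrArg Prod.fst h
      omega
    · intro k
      left
      refine ⟨?_, rfl⟩
      change near (k : ℤ) ((k + 1 : ℕ) : ℤ)
      exact ⟨by omega, by omega, by omega⟩
  have ht : IsRay (G n) t := by
    constructor
    · intro a b h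
      have : -(a : ℤ) = -b := congrArg Prod.fst h
      omega
    · intro k
      left
      refine ⟨?_, rfl⟩
      change near (-(k : ℤ)) (-((k + 1 : ℕ) : ℤ))
      exact ⟨by omega, by omega, by omega⟩
  have hr' : Goes 1 r := by
    intro M
    refine ⟨(M + 1).toNat, fun i hi => ?_⟩
    change M < 1 * (i : ℤ)
    omega
  have ht' : Goes (-1) t := by
    intro M
    refine ⟨(M + 1).toNat, fun i hi => ?_⟩
    change M < -1 * (-(i : ℤ))
    omega
  refine ⟨r, t, hr, ht, ?_, ?_⟩
  · intro h
    obtain ⟨m, hm⟩ := h {v | -2 ≤ v.1 ∧ v.1 ≤ 2} (slab_finite 2)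
    obtain ⟨hi, hj, hreach⟩ := hm (m + 3) (by omega) (m + 3) (by omega)
    obtain ⟨w⟩ := hreach
    have key : ∀ (a b : ({v : GV n | -2 ≤ v.1 ∧ v.1 ≤ 2}ᶜ : Set (GV n)))
        (w : ((G n).induce {v : GV n | -2 ≤ v.1 ∧ v.1 ≤ 2}ᶜ).Walk a b), 2 < a.1.1 →
        2 < b.1.1 := by
      intro a b w
      induction w with
      | nil => exact id
      | @cons a c b h w ih =>
        intro ha
        apply ih
        have h1 := adj_near (comap_adj.1 h)
        have h2 : ¬ (-2 ≤ c.1.1 ∧ c.1.1 ≤ 2) := c.2
        simp only [Function.Embedding.subtype_apply] at h1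
        omega
    have h1 := key _ _ w (by
      change (2 : ℤ) < ((m + 3 : ℕ) : ℤ)
      omega)
    change (2 : ℤ) < -((m + 3 : ℕ) : ℤ) at h1
    omega
  · intro q hq
    rcases ray_goes hq with h | h
    · exact Or.inl (goes_equiv (Or.inl rfl) h hr')
    · exact Or.inr (goes_equiv (Or.inr rfl) h ht')

end Q124.NCay
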